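import Pool.Agent.helper89.PU.Spec1

/-!
# Row pv:FB2 (MP_2e0e07_nt): the second level, one representation
-/

set_option autoImplicit false

namespace Pool.Agent.PV

open Matrix Polynomial Pool.Agent.GO Pool.Agent.AR Pool.Agent.RG Pool.Agent.HZ Pool.Agent.DS
  Pool.Agent.AX Pool.Agent.UM Pool.Agent.PU MeasureTheory NumberField

theorem FB2_card (p k : ℕ) [Fact p.Prime] {m : Type} [Fintype m] [DecidableEq m]
    (hm : Fintype.card m = k) :
    Nat.card (Matrix m m (ZMod (p ^ 2)))ˣ ≤ p ^ (2 * k ^ 2) := by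
  have h1 : Nat.card (Matrix m m (ZMod (p ^ 2))) = p ^ (2 * k ^ 2) := by
    show Nat.card (m → m → ZMod (p ^ 2)) = _
    rw [Nat.card_fun, Nat.card_fun, Nat.card_zmod, Nat.card_eq_fintype_card, hm]
    rw [← pow_mul, ← pow_mul]
    congr 1
    ring
  have hfin : Finite (Matrix m m (ZMod (p ^ 2))) := by
    show Finite (m → m → ZMod (p ^ 2))
    infer_instance
  rw [← h1]
  exact Nat.card_le_card_of_injective _ Units.val_injective

theorem FB2_pow (p k : ℕ) [Fact p.Prime] {Γ m : Type} [Group Γ] [Fintype m] [DecidableEq m]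
    (hm : Fintype.card m = k) (V : Γ →* Matrix m m ℤ_[p]) (h : Γ) (i j : m) :
    (p : ℤ_[p]) ^ 2 ∣ (V (h ^ (p ^ (2 * k ^ 2)).factorial) - 1) i j := by
  set f : Γ →* Matrix m m (ZMod (p ^ 2)) :=
    ((PadicInt.toZModPow (p := p) 2).mapMatrix (m := m)).toMonoidHom.comp V with hf
  have hfin : Finite (Matrix m m (ZMod (p ^ 2)))ˣ := by
    have : Finite (Matrix m m (ZMod (p ^ 2))) := by
      show Finite (m → m → ZMod (p ^ 2))
      infer_instance
    exact Finite.of_injective _ Units.val_injective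
  have h1 : f.toHomUnits h ^ (p ^ (2 * k ^ 2)).factorial = 1 := by
    apply orderOf_dvd_iff_pow_eq_one.1
    exact (orderOf_dvd_natCard _).trans (Nat.dvd_factorial Nat.card_pos (FB2_card p k hm))
  have h2 : f (h ^ (p ^ (2 * k ^ 2)).factorial) = 1 := by
    have h3 := congrArg Units.val h1
    rw [← map_pow] at h3
    exact h3
  have h3 := congrFun (congrFun h2 i) j
  have h4 : (PadicInt.toZModPow (p := p) 2) ((V (h ^ (p ^ (2 * k ^ 2)).factorial)) i j) =
      (1 : Matrix m m (ZMod (p ^ 2))) i j := h3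
  have h5 : (PadicInt.toZModPow (p := p) 2) ((V (h ^ (p ^ (2 * k ^ 2)).factorial) - 1) i j) = 0 := by
    rw [Matrix.sub_apply, map_sub, h4, sub_eq_zero, Matrix.one_apply, Matrix.one_apply]
    split_ifs
    · rw [map_one]
    · rw [map_zero]
  have h6 : (V (h ^ (p ^ (2 * k ^ 2)).factorial) - 1) i j ∈
      RingHom.ker (PadicInt.toZModPow (p := p) 2) := h5
  rw [PadicInt.ker_toZModPow, Ideal.mem_span_singleton] at h6
  exact h6

theorem FB2 : FB2_stmt := by
  intro p _ Γ F _ _ _ _ R G₁ κ hL h₀ hh₀ hne k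
  refine ⟨‖(((p ^ (2 * k ^ 2)).factorial : ℕ) : F)‖ * nu (R h₀), ?_, ?_⟩
  · have h1 : ((((p ^ (2 * k ^ 2)).factorial : ℕ) : F)) ≠ 0 := by
      have h2 : ((((p ^ (2 * k ^ 2)).factorial : ℕ) : F)) =
          algebraMap ℚ_[p] F (((p ^ (2 * k ^ 2)).factorial : ℕ) : ℚ_[p]) := by rw [map_natCast]
      rw [h2]
      intro h3
      have h4 := (algebraMap ℚ_[p] F).injective (h3.trans (map_zero _).symm)
      exact (Nat.factorial_ne_zero _) (Nat.cast_eq_zero.1 h4)
    exact mul_pos (norm_pos_iff.2 h1) (lt_of_le_of_ne (nu_nonneg _) (Ne.symm hne))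
  · intro m _ _ V hm
    refine ⟨h₀ ^ (p ^ (2 * k ^ 2)).factorial, ⟨G₁.pow_mem hh₀ _, fun i j => FB2_pow p k hm V h₀ i j⟩,
      ?_⟩
    rw [hL.pow h₀ hh₀]

end Pool.Agent.PV
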